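import Pool.Agent.Lib.H49M.FinalR

/-!
# A common form over `ℚ` of the `l`-adic monodromy groups: abelian varieties without
endomorphisms which have bad reduction or are defined over a field of suitable degree

`V = ℚ^ι` is a vector space of dimension `2g` with a nondegenerate alternating form of Gram
matrix `ψ`, `G` is a group (the absolute Galois group of a number field `F`) and
`ρ l : G → GL(V ⊗ ℚ_l)`, one for each prime `l`, are representations by symplectic similitudes
(the rational Tate modules of an abelian variety `A / F` of dimension `g` without endomorphisms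
over the algebraic closure except the integers).  `Λ` is the set of all primes (or of all primes
but one) and `Λ₁` is a subset of density one (of positive density in case (b) below).

## The hypotheses

* `irr`: every subgroup of finite index is irreducible on `V ⊗ K`, `K` an algebraic closure of
  `ℚ_l` (Faltings);
* `char`, `mult`, `diag`, `hq`: the element `σ` (a Frobenius element at a place `v` of `F` of good
  reduction) has a characteristic polynomial over `ℚ` which does not depend on `l`, the multiplier
  `q` and is diagonalisable (Weil; `Λ` does not contain the residue characteristic of `v`);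
* `torus`: the Frobenius torus, the Zariski closure of the powers of `ρ l σ`, is a maximal torus
  of the monodromy group and contains its centraliser, `l ∈ Λ₁` (Serre: true for all `v` in a set
  of density one; here it is required for `l ∈ Λ₁` only, the theorem is about all `l ∈ Λ`);
* `hg`, `form`: there is a simple Lie algebra `g` of matrices over `ℚ`, generating the algebra of
  all matrices, such that for `l ∈ Λ₁` the Lie algebra of the Zariski closure of the image of
  `ρ l` consists of the scalars and a conjugate (over `ℚ_l`) of `g ⊗ K` (Pink 1998, Theorem 5.13: a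
  common form over `ℚ` of the derived groups, as abstract groups with representation, for a set
  of primes of density one, and it is simple over `ℚ`.  The position of this form with respect to
  `V` is not controlled; `P` depends on `l`);
* `hodge`: the Lie algebra contains a projector `h ≠ 0, 1` such that the cocharacter
  `1 + (t - 1) h` has values in the monodromy group, `l ∈ Λ₁` (Hodge, Tate, Faltings, Sen, Serre);
* `point`: for `l ∈ Λ₁` the Lie algebra contains a nonscalar `y` with `y² = y` or `y² = 0` whose
  conjugates under `Gal(K / ℚ_l)` are conjugate to `y` under the identity component.  This holds: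

  (a) if `A` has a place `w` where it has not potentially good reduction: take for `y` the
  logarithm of a unipotent element of inertia at `w` (`y² = 0` by Grothendieck), it is defined
  over `ℚ_l`, `l` prime to `w`;

  (b) if the monodromy groups are connected and `F` has a place of degree one above `l`: take for
  `y` the projector of a Hodge-Tate cocharacter at this place; a Galois element `τ` maps it to
  its conjugate by `ρ l τ`.  `Λ₁` consists of these primes;

* `cheb`: every irreducible polynomial `f` over `ℚ` of odd degree `k ≥ 3` such that `2g` is a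
  `k`-th power has no root in `ℚ_l` for some `l ∈ Λ₁`.  In case (a) this is a consequence of
  theorems of Chebotarev and Jordan.  In case (b) the same is true if `[F : ℚ]` is prime to every
  such `k` (`f` stays irreducible over `F`; apply Jordan's theorem to the action of the Galois
  group over `F` on the roots), or for `g = 4` if `F` contains no cubic field;
* `num`: if `2g = 2^m` with `m ≥ 5`, `m ≡ 1` or `2 mod 4`, there is for one `l ∈ Λ₁` an element
  `N ≠ 0`, `N² = 0`, of the Lie algebra whose rank is neither `g / 2` nor `g`; if
  `2g = C(2k, k)` with `k ≥ 3` odd, there is one whose rank is not `C(2k-2, k-1)`.  This is no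
  condition for all other `g`; for the exceptional ones it holds if `A` has a place where the
  toric rank `r > 0` of the (semistable) reduction is different from these numbers.

## The conclusion

For all `l ∈ Λ` the monodromy group of every subgroup of finite index is the full group of
symplectic similitudes of `ψ`, so the problem has a positive answer for `A` (and the
Mumford-Tate conjecture holds for `A`).

So this holds for all `A` with `End A = ℤ` over the algebraic closure with at least one place
where the reduction is not potentially good, for all `g` except those with `2g = 2^m`,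
`m ≡ 1, 2 mod 4`, `m ≥ 5`, and `2g = C(2k, k)`, `k ≥ 3` odd, and also for these if the toric rank
is not exactly `g/2` or `g`, resp. `C(2k-2, k-1)`.  For arbitrary reduction it holds for the same
`g` if the monodromy groups are connected (always after a finite extension of `F`) and `[F : ℚ]`
is prime to all odd `k ≥ 3` for which `2g` is a `k`-th power.  The theorem of Pink (1998, Theorem
5.14) is the case where there are no such `k`.  It leaves open `g = 4` (`2g = 8`), `g = 108` and
all `2g = a^k`; the new cases are the tensor product cases, in particular the abelian fourfolds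
whose `l`-adic groups might be of the type found by Mumford.

The proof does not use the classification of Lie algebras: a simple irreducible Lie algebra of
symplectic operators with an involution is analysed with Jordan pair methods
(`Pool.Agent.H49M.coreR`), and the centroid of the rational form is shown to be `ℚ` by descending
`y` to a single simple factor (`B7_root`), the dimension being a power (`B8_power`) with odd
exponent (`B9_odd`).
-/

set_option autoImplicit false

namespace Pool.Agent.Results.MP_e965d0_ag.BadReductionOrDegree

open Pool.Agent.H53Toric Pool.Agent.H49M Matrix Polynomial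

/-- Let `ψ` be a nondegenerate alternating form over `ℚ`, `G` a group and `ρ l`, `l` prime, a
family of representations of `G` over `ℚ_l` by symplectic similitudes of `ψ`, which satisfy the
conditions explained above for the primes in `Λ`, `Λ₁`.  Then for all `l` in `Λ` the algebraic
monodromy group of the restriction of `ρ l` to every subgroup of finite index is the full group
of symplectic similitudes of `ψ`. -/
theorem result {ι : Type*} [Fintype ι] [DecidableEq ι] {ψ : Matrix ι ι ℚ} (hψ : ψᵀ = -ψ)
    (hψ0 : ψ.det ≠ 0) (hι : 2 ≤ Fintype.card ι) {G : Type*} [Group G]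
    (ρ : ∀ (l : ℕ) [Fact l.Prime], G →* Matrix.GeneralLinearGroup ι ℚ_[l]) (Λ Λ₁ : Set ℕ)
    (hΛ : Λ₁ ⊆ Λ)
    (sim : ∀ (l : ℕ) [Fact l.Prime], l ∈ Λ → ∀ σ : G, ∃ c : ℚ_[l],
      (ρ l σ).1ᵀ * ψ.map (algebraMap ℚ ℚ_[l]) * (ρ l σ).1 = c • ψ.map (algebraMap ℚ ℚ_[l]))
    (irr : ∀ (l : ℕ) [Fact l.Prime], l ∈ Λ → ∀ H : Subgroup G, H.FiniteIndex →
      ∀ W : Submodule (AlgebraicClosure ℚ_[l]) (ι → AlgebraicClosure ℚ_[l]),
        (∀ s ∈ img (AlgebraicClosure ℚ_[l]) (ρ l) H, ∀ w ∈ W, s *ᵥ w ∈ W) → W = ⊥ ∨ W = ⊤)
    (σ : G) (q : ℚ) (hq : ∀ n : ℕ, n ≠ 0 → q ^ n ≠ 1) (F : ℚ[X])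
    (mult : ∀ (l : ℕ) [Fact l.Prime], l ∈ Λ →
      (ρ l σ).1ᵀ * ψ.map (algebraMap ℚ ℚ_[l]) * (ρ l σ).1 =
        algebraMap ℚ ℚ_[l] q • ψ.map (algebraMap ℚ ℚ_[l]))
    (char : ∀ (l : ℕ) [Fact l.Prime], l ∈ Λ →
      (ρ l σ).1.charpoly = F.map (algebraMap ℚ ℚ_[l]))
    (diag : ∀ (l : ℕ) [Fact l.Prime], l ∈ Λ →
      Diagonalisable ((ρ l σ).1.map (algebraMap ℚ_[l] (AlgebraicClosure ℚ_[l]))))
    (torus : ∀ (l : ℕ) [Fact l.Prime], l ∈ Λ₁ → TorusCond (AlgebraicClosure ℚ_[l]) (ρ l) σ)
    (g : Submodule ℚ (Matrix ι ι ℚ)) (hg : QForm g)
    (form : ∀ (l : ℕ) [Fact l.Prime], l ∈ Λ₁ → HasForm (AlgebraicClosure ℚ_[l]) (ρ l) g)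
    (hodge : ∀ (l : ℕ) [Fact l.Prime], l ∈ Λ₁ →
      ∃ h ∈ hodgeProj (img (AlgebraicClosure ℚ_[l]) (ρ l) ⊤), h ≠ 0 ∧ h ≠ 1)
    (point : ∀ (l : ℕ) [Fact l.Prime], l ∈ Λ₁ → HasPoint (AlgebraicClosure ℚ_[l]) (ρ l))
    (cheb : ∀ f : ℚ[X], Irreducible f → 3 ≤ f.natDegree → Odd f.natDegree →
      (∃ m : ℕ, Fintype.card ι = m ^ f.natDegree) →
      ∃ (l : ℕ) (_ : Fact l.Prime), l ∈ Λ₁ ∧ ∀ x : ℚ_[l], aeval x f ≠ 0)
    (num : ∃ (l : ℕ) (_ : Fact l.Prime), l ∈ Λ₁ ∧
      (∀ m : ℕ, 5 ≤ m → (m % 4 = 1 ∨ m % 4 = 2) → Fintype.card ι = 2 ^ m →
        ∃ N ∈ zlie (img (AlgebraicClosure ℚ_[l]) (ρ l) ⊤), N * N = 0 ∧ N ≠ 0 ∧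
          4 * N.rank ≠ Fintype.card ι ∧ 2 * N.rank ≠ Fintype.card ι) ∧
      (∀ k : ℕ, 3 ≤ k → Odd k → Fintype.card ι = k.centralBinom →
        ∃ N ∈ zlie (img (AlgebraicClosure ℚ_[l]) (ρ l) ⊤), N * N = 0 ∧ N ≠ 0 ∧
          N.rank ≠ (k - 1).centralBinom)) :
    ∀ (l : ℕ) [Fact l.Prime], l ∈ Λ → ∀ H : Subgroup G, H.FiniteIndex →
      monodromy (AlgebraicClosure ℚ_[l]) (ρ l) H = simil (AlgebraicClosure ℚ_[l]) ψ :=
  finalR hψ hψ0 hι ρ Λ Λ₁ hΛ sim irr σ q hq F mult char diag torus g hg form hodge point cheb num

end Pool.Agent.Results.MP_e965d0_ag.BadReductionOrDegree
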