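import Pool.Agent.Lib.H76F.Final
import Pool.Agent.Lib.H76U.RatForm

/-!
# A common form over `ℚ` of the `l`-adic monodromy groups: abelian varieties with a Frobenius
root without quadratic relations

`V = ℚ^ι` is a vector space with a nondegenerate alternating form of Gram matrix `ψ` and an
algebra `D` of endomorphisms, `G` is a group (the absolute Galois group of a number field `F`)
and `ρ l : G → GL(V ⊗ ℚ_l)`, one for each prime `l`, are representations by symplectic similitudes
commuting with `D` (the rational Tate modules of an abelian variety `A / F` all of whose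
endomorphisms are defined over `F`, with endomorphism algebra `D`).

Let `M` be a Galois number field splitting `D` and `e b`, `b < m`, be primitive idempotents of
`D ⊗ M`, one in each simple factor, such that the adjoint of `e b` is `e (bar b)` (they exist if
and only if no simple factor of `A` is of type III).  A component `b` is symplectic if
`bar b = b` and unitary otherwise; the rank of `e b` is the dimension of the component
`V_b = e b V`.  A Hodge type is the vector of the ranks of `h (e b)`, `h` a weak Hodge
projector; for an abelian variety the Hodge types are the vectors of the numbers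
`dim e b (Lie A ⊗ σ)`, `σ` an embedding of `F`, so they form a finite set `sig` which is stable
under Galois and does not depend on `l`.

The hypotheses on the representations are:

* `faltings`: for every subgroup `H` of finite index the representation of `H` on `V ⊗ K`, `K` an
  algebraic closure of `ℚ_l`, is semisimple, and its commutant is `D ⊗ K` (Faltings);
* `hodge`: some set `𝓗` of weak Hodge projectors has the set of types `sig` and the image of some
  subgroup of finite index lies in the Zariski closure of the group generated by the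
  cocharacters `t ^ h`, `h` in `𝓗` (Pink, from results of Serre, Sen and Faltings);
* `comp`: every component `V_b` satisfies one of the following conditions:

  (1) it has dimension one (a simple factor of CM type);

  (2) one of the Hodge types `n` has `n b = 1` or `n (bar b) = 1`, or `V_b` is symplectic of
  dimension at most `6`;

  (3) there is a unipotent element `1 + N` of the monodromy group, `N ^ 2 = 0`, such that
  `N (e b)` has rank one, or, for symplectic `V_b`, rank two or odd rank;

  (4) for some element `σ` of `G` the matrix `x = ρ l σ` is diagonalisable and the set of its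
  eigenvalues on `V_b` has a free cut (`FreeCut`).  The basic case: `x` has at least two
  eigenvalues on `V_b` and one of them, `α`, has multiplicity one and satisfies no relation
  `α γ = β δ` with eigenvalues `β ≠ α`, `γ`, `δ` of `x` on `V_b`, except the trivial ones
  (`γ = β`, and for symplectic `V_b` also `α γ = c`, the multiplier); take for `w` the trivial
  absolute value and `A = {α}`.  The
  multiplicative map `w` from `K` to the nonnegative reals allows much weaker conditions: it is
  enough that `α` has the second largest value of `w` and that there are no relations with `β`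
  of largest `w`, and `α` or all these `β` are simple.

  Examples of (4), for a Frobenius element `σ` at a place `v` of `F`, `End A = ℤ`.
  (a) `A` has semistable bad reduction at `v`, with split toric part of dimension `< dim A`, and
  one Frobenius eigenvalue of the abelian part of the reduction has multiplicity one: take for
  `w` a complex absolute value (the eigenvalues on the toric part are `1` and `q`, those of the
  abelian part have absolute value `√q`), `β = q`.  The toric rank is arbitrary.
  (b) `A` has good reduction at `v`, isogenous to `B × C` with `C` supersingular and `B` ordinary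
  without multiple factors over the algebraic closure, `B` and `C` not zero (take for `w` a
  `p`-adic absolute value and for `σ` a power of Frobenius).
  (c) `A` has ordinary reduction, dimension at least two, and one simple unit root eigenvalue `α` satisfies no relation
  `α γ = β δ` with unit root eigenvalues except the trivial ones.
  (d) `A` has `p`-rank one at `v` and its second smallest slope `a` is not the difference of two
  slopes except `a - 0` and `1 - (1 - a)`; this contains the reductions of K3 type of Zarhin.

The conclusion is that for every sufficiently small subgroup of finite index the algebraic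
monodromy group is the explicit group `typeGrp`, which is defined over `ℚ` and does not depend on
`l`: all similitudes commuting with `D` whose multiplier and determinants on the components
satisfy the relations satisfied by the Hodge types.  The proof is elementary and does not use
any classification of Lie algebras.
-/

set_option autoImplicit false

namespace Pool.Agent.Results.MP_e965d0_ag.FreeFrobeniusRoot

open Pool.Agent.H53Toric Pool.Agent.H76RM Pool.Agent.H76U Pool.Agent.H76F Matrix

/-- Let `ψ` be a nondegenerate alternating form over `ℚ`, `D` an algebra of matrices over `ℚ`, `G`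
a group and `ρ l`, `l` prime, a family of representations of `G` over `ℚ_l` by symplectic
similitudes of `ψ` commuting with `D`.  Let `e b` be primitive idempotents of `D ⊗ M` as above,
`M` a Galois number field embedded in an algebraic closure `K` of `ℚ_l` for all `l`, and `sig` a
Galois stable set of types.  Let `Λ` be a set of primes such that for all `l` in `Λ` the
conditions `faltings`, `hodge` and `comp` hold.  Then there is a set `P` of polynomials over `ℚ`
such that for every `l` in `Λ` the group `typeGrp` over `K` is the set of common zeros of `P` in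
`GL(V ⊗ K)`, and it is the algebraic monodromy group of the restriction of `ρ l` to every
subgroup of finite index that is small enough. -/
theorem result {ι : Type*} [Fintype ι] [DecidableEq ι] [Nonempty ι] {ψ : Matrix ι ι ℚ}
    (hψ : ψᵀ = -ψ) (hψ0 : ψ.det ≠ 0) (D : Subalgebra ℚ (Matrix ι ι ℚ)) {G : Type*} [Group G]
    (ρ : ∀ (l : ℕ) [Fact l.Prime], G →* Matrix.GeneralLinearGroup ι ℚ_[l])
    {M : Type*} [Field M] [NumberField M] [IsGalois ℚ M]
    (emb : ∀ (l : ℕ) [Fact l.Prime], M →+* AlgebraicClosure ℚ_[l])
    {m : ℕ} {bar : Fin m → Fin m} {e : Fin m → Matrix ι ι M} (split : IsSplitting D ψ bar e)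
    {sig : Set (Fin m → ℕ)}
    (types : ∀ n ∈ sig, ∀ b, n b + n (bar b) = (e b).rank ∧ (1 < (e b).rank → 0 < n b))
    (galois : ∀ τ : M ≃ₐ[ℚ] M, ∀ n ∈ sig, ∃ n' ∈ sig, ∀ b c,
      (∃ d ∈ spanK M D, (e b).map τ * d * e c ≠ 0) → n' b = n c)
    (Λ : Set ℕ)
    (lin : ∀ (l : ℕ) [Fact l.Prime], l ∈ Λ → ∀ σ : G, ∀ d ∈ D,
      (ρ l σ).1 * d.map (algebraMap ℚ ℚ_[l]) = d.map (algebraMap ℚ ℚ_[l]) * (ρ l σ).1)
    (sim : ∀ (l : ℕ) [Fact l.Prime], l ∈ Λ → ∀ σ : G, ∃ c : ℚ_[l],
      (ρ l σ).1ᵀ * ψ.map (algebraMap ℚ ℚ_[l]) * (ρ l σ).1 = c • ψ.map (algebraMap ℚ ℚ_[l]))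
    (faltings : ∀ (l : ℕ) [Fact l.Prime], l ∈ Λ → ∀ H : Subgroup G, H.FiniteIndex →
      (∀ W : Submodule (AlgebraicClosure ℚ_[l]) (ι → AlgebraicClosure ℚ_[l]),
        (∀ s ∈ img (AlgebraicClosure ℚ_[l]) (ρ l) H, ∀ w ∈ W, s *ᵥ w ∈ W) →
        ∃ W' : Submodule (AlgebraicClosure ℚ_[l]) (ι → AlgebraicClosure ℚ_[l]),
          (∀ s ∈ img (AlgebraicClosure ℚ_[l]) (ρ l) H, ∀ w ∈ W', s *ᵥ w ∈ W') ∧
          IsCompl W W') ∧
      ∀ y : Matrix ι ι (AlgebraicClosure ℚ_[l]),
        (∀ s ∈ img (AlgebraicClosure ℚ_[l]) (ρ l) H, y * s = s * y) →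
        y ∈ spanK (AlgebraicClosure ℚ_[l]) D)
    (hodge : ∀ (l : ℕ) [Fact l.Prime], l ∈ Λ →
      ∃ 𝓗 : Set (Matrix ι ι (AlgebraicClosure ℚ_[l])),
        (∀ h ∈ 𝓗, h ∈ hodgeProj (img (AlgebraicClosure ℚ_[l]) (ρ l) ⊤)) ∧
        (∀ h ∈ 𝓗, (fun b => (h * (e b).map (emb l)).rank) ∈ sig) ∧
        (∀ n ∈ sig, ∃ h ∈ 𝓗, ∀ b, (h * (e b).map (emb l)).rank = n b) ∧
        ∃ H₀ : Subgroup G, H₀.FiniteIndex ∧ img (AlgebraicClosure ℚ_[l]) (ρ l) H₀ ⊆
          zar (Submonoid.closure {x | ∃ h ∈ 𝓗, ∃ t : AlgebraicClosure ℚ_[l],
            t ≠ 0 ∧ x = 1 + (t - 1) • h} : Set (Matrix ι ι (AlgebraicClosure ℚ_[l]))))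
    (comp : ∀ (l : ℕ) [Fact l.Prime], l ∈ Λ → ∀ b, (e b).rank = 1 ∨
      (∃ n ∈ sig, n b = 1 ∨ n (bar b) = 1 ∨ (bar b = b ∧ n b ≤ 3)) ∨
      (∃ N : Matrix ι ι (AlgebraicClosure ℚ_[l]), N * N = 0 ∧
        1 + N ∈ zar (img (AlgebraicClosure ℚ_[l]) (ρ l) ⊤) ∧
        ((N * (e b).map (emb l)).rank = 1 ∨ (bar b = b ∧
          ((N * (e b).map (emb l)).rank = 2 ∨ Odd (N * (e b).map (emb l)).rank)))) ∨
      ∃ σ : G, FreeCut (ψ.map (algebraMap ℚ (AlgebraicClosure ℚ_[l])))
        ((ρ l σ).1.map (algebraMap ℚ_[l] (AlgebraicClosure ℚ_[l]))) ((e b).map (emb l))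
        (bar b = b)) :
    ∃ P : Set (MvPolynomial (ι × ι) ℚ), ∀ (l : ℕ) [Fact l.Prime], l ∈ Λ →
      typeGrp (AlgebraicClosure ℚ_[l]) ψ D (fun b => (e b).map (emb l)) sig =
        {x : Matrix ι ι (AlgebraicClosure ℚ_[l]) | x.det ≠ 0 ∧
          ∀ f ∈ P, MvPolynomial.aeval (fun q : ι × ι => x q.1 q.2) f = 0} ∧
      ∃ H₀ : Subgroup G, H₀.FiniteIndex ∧ ∀ H : Subgroup G, H.FiniteIndex → H ≤ H₀ →
        monodromy (AlgebraicClosure ℚ_[l]) (ρ l) H =
          typeGrp (AlgebraicClosure ℚ_[l]) ψ D (fun b => (e b).map (emb l)) sig := by
  obtain ⟨P, hP⟩ := rational_form hψ0 D split galois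
  refine ⟨P, fun l _ hl => ?_⟩
  have : CharZero (AlgebraicClosure ℚ_[l]) := inferInstance
  refine ⟨hP (AlgebraicClosure ℚ_[l]) (emb l), ?_⟩
  obtain ⟨𝓗, h1, h2, h3, H₀, hfin, h4⟩ := hodge l hl
  refine ⟨H₀, hfin, fun H hH hle => ?_⟩
  have hrank : ∀ b, ((e b).map (emb l)).rank = (e b).rank := fun b =>
    rank_idem_map (split.idem b) (emb l)
  refine monodromy_free hψ hψ0 D (ρ l) (lin l hl) (sim l hl)
    (fun H hH => (faltings l hl H hH).1) (fun H hH => (faltings l hl H hH).2)
    (split.map (emb l)) ?_ h1 h2 h3 h4 ?_ H hH hle
  · intro n hn b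
    rw [hrank]
    exact types n hn b
  · intro b
    rw [hrank]
    exact comp l hl b

end Pool.Agent.Results.MP_e965d0_ag.FreeFrobeniusRoot
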