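import Pool.Agent.Lib.H1M.RC.D_H45U_Fin6

/-!
# The Mumford-Tate conjecture for abelian varieties: the Hodge-Tate types of the simple factors are
# distributed by a reciprocity law

`A` is an abelian variety over a number field `F`, all endomorphisms of which over the algebraic
closure are defined over `F`, such that the `l`-adic monodromy groups are connected (this is true
after a finite extension of `F`).  The simple factors of `A` may be of all four types of Albert and
of any signature.  `V = ℚ^ι = H_1(A(ℂ), ℚ)`, where `ι` is a basis of `H_1(A(ℂ), ℤ)`, with the Riemann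
form, of Gram matrix `ψ`; `D` is the algebra of endomorphisms; `M` is a number field which contains
the conjugates of the centres `E` of all simple factors of `D` and splits `D`; `e b ∈ D ⊗ M`, `b < m`,
are primitive idempotents, one in each simple factor of `D ⊗ M`, `u` is a unit of `D ⊗ M` and `e (bar b)`
is the adjoint of `e b` with respect to the form `ψ u` (`H76Z.Splits D ψ cl bar e u`; for factors of
type III there is no self adjoint primitive idempotent, so the form must be changed by a unit).
The *class* `cl b` is `s` for the factors of types I and II: `bar b = b` and `ψ u` is alternating on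
the image of `e b`; it is `o` for those of type III: `bar b = b` and `ψ u` is symmetric on the image
of `e b`; it is `n` for those of type IV: `bar b ≠ b`.  `Ω` is an algebraic closure of `F`, `j : M → Ω`
an embedding and `ρ l : Gal(Ω / F) → GL(V ⊗ ℚ_l)` are the `l`-adic representations.  `h b τ` is, for an
embedding `τ : F → Ω`, the rank of `e b` on `Lie(A) ⊗_τ Ω`.  If `A` is isogenous to a power of a simple
abelian variety of dimension `g` whose algebra has the centre `E` and dimension `d^2` over `E`, then
`n_b = (e b).rank = 2 g / (d [E : ℚ])`; `2 h b τ = n_b` for the classes `s` and `o`, and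
`h b τ + h (bar b) τ = n_b`.  `E_b` is the centre of the factor which belongs to `b`, `E_b⁺` its maximal
totally real subfield, `K_l` the algebraic closure of `ℚ_l`.

## The hypotheses which are true for all `A`

* `hpos`: the Rosati involution is positive.
* `cont`, `lin`, `sim`: the Galois group acts continuously, commutes with `End(A)` and respects
  the Weil pairing up to the cyclotomic character.
* `semis`, `commt`: Faltings 1983: `V_l` is semisimple and its commutant is `End(A) ⊗ ℚ_l`, also
  over finite extensions of `F` (subgroups of finite index of a compact `l`-adic group are open).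
* `gen`: Pink 1998, Theorem 3.18: the connected group `G_l` is generated by its Hodge
  cocharacters, of weights `0` and `1`; also as an abstract group (Borel 2.2).
* `unr`: `S` is the set of the places of bad reduction (Néron, Ogg, Shafarevich; inertia acts
  trivially at all other places prime to `l`).
* `bad`: `ub b` may be true if the factor of `b` has somewhere bad reduction which is not potentially
  good (it may also be false for all `b`).  Then `g` is an element of the inertia group at this
  place which acts unipotently, `(g - 1)^2 = 0` (Grothendieck); the image of `g - 1` is the space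
  of cocharacters of the torus in the reduction, a nonzero vector space over `E_b`, so `e b` is not
  zero on it.

## The places outside a set of density zero

`Z` is a set of places of natural density zero (`DensZero`), which contains the places of bad
reduction, the finite exceptional sets in the theorems quoted below and the places whose Frobenius
torus is not a maximal torus of the monodromy groups (a set of density zero: Serre, letter to Ribet,
1981).  For each place `w` of prime norm `p` outside `Z` (`good`) there are data `σ`, `f`, `χ`, `v`, `φ`, `μ`,
`ν` with the following properties (the structure `PlaceData`).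

* `frv`: `σ` is a Frobenius element at `w`.  `f` is its characteristic polynomial on `V_l`, for all
  `l ≠ p` (`char`), and `χ b ∈ M[X]` that on the image of `e b`.  `monic`, `weil`, `mult`, `char`: Weil.
* `frob`, `frobp` (the structure `FrobT`) for `l ≠ p` and for the crystalline Frobenius:
  `idc`: `G_l` is connected.  `dgb`: Weil, Tate: Frobenius is semisimple.  `torus`: Serre, see above;
  the rank of `G_l` does not depend on `l`.  `torgen`: a maximal torus is generated up to finite
  index by the Hodge cocharacters in it (Pink 1998, 3.18, and irreducibility of the Weyl group on the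
  simple factors).  `simple`: Serre, Pink: all weights are minuscule, so the weights of
  `(e b) V_l` have multiplicity one.  `eig`: Shimura (and Katz-Messing for `l = p`): the
  characteristic polynomial over the centre does not depend on `l`.
* `neat`: `G_l` is connected, so the Frobenius torus is, and no ratio of two different eigenvalues
  of Frobenius on the same component is a root of unity.
* `val`: `v` is the `p`-adic valuation of `K_p`.  `φ` is the inverse of the crystalline Frobenius of
  `D_cris(V_p)`, moved to `V_p` by an isomorphism of fibre functors over the maximal unramified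
  extension of `ℚ_p` (Fontaine; Steinberg: it exists because `G_p` is connected).  `multp`:
  Katz-Messing.
* `crys` (the structure `CrysF3`): `mu`, `muphi`: `μ` is a conjugate of the Hodge-Tate cocharacter in
  the torus of `φ`.  `nu`: `ν` is the logarithm of the absolute values of `φ`.  `newton`: Fontaine,
  Rapoport-Richartz: `V_p` is weakly admissible and `F_w = ℚ_p`, so `ν` is in the convex hull of the
  Weyl orbit of `μ`; hence a space of matrices stable under the Lie algebra which contains
  `(2 μ - 1) e_b` contains `(2 ν - 1) e_b`.  `phigen`: Pink, as above.  `unr`: Sen, Fontaine: a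
  crystalline representation with Hodge-Tate weights `0` is unramified, and there `D_cris` is
  canonically `W ⊗ ℚ_p^nr`; this is applied to the space of all matrices which commute with the
  conjugates of `μ`.  `int`: Larsen-Pink 1995, Wintenberger 2002: for large `p` the Zariski closure of
  the image in `GL(T_p)` is a reductive group scheme over `ℤ_p`; its points over the
  ring of integers of `K_p` are generated by the integral Hodge one parameter groups.
  `eint`: the `e b` are integral at `p`.  `dphi`: `φ` is defined over the maximal unramified extension.
  `dideal`: `G_p` is unramified, so the derived algebras of all ideals of its Lie algebra are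
  defined over the maximal unramified extension.
* `wa`: Fontaine: the end points of the Newton and the Hodge polygon of `(e b) V_p` agree.
* `hdg`: Tate, Raynaud: the Hodge-Tate decomposition of `V_p` at `w`: `i τ` induces the place `w`.
* `htr` (only needed if some `n_b` is as in `binom`): `HTRat`, for almost all places of `F` of degree
  one the class of the Hodge-Tate cocharacter is defined over `ℚ_l` (because `F_w = ℚ_l`).
* `nodual`, `noprop`, `nosix` belong to the alternatives `nd`, `np`, `ns` below, which may be false.

No place is chosen: the existence of a place outside `Z` with a totally positive generator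
`≡ 1 mod n_b^2 v`, for all `b` and `v ∈ S`, which the proof uses, is proved (Chebotarev's theorem for
the ray class field).
Class field theory (the reciprocity law for the characters of finite order of the Galois group of
`F`), Chebotarev's theorem and the theorem on Weil numbers which we use are not assumed, they are
proved in the libraries.

## The conditions on `F` and on the numbers `n_b` and `h b τ`

* `part`: a *Mumford datum* of `b` (`MumU` and `Big`) consists of an integer `k ≥ 2`, a map `c` from the set of
  the embeddings `τ` of `F` with `0 < h b τ < n_b` onto `{1, ..., k}` and integers `A x ≥ 2` such that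
  `n_b` divides `(h b τ) (A (c τ))`.  The Galois group of `E_b⁺` permutes the fibres of `c` and
  respects `A`; complex conjugations act trivially; for the class `s` each element has a cycle of
  odd length, and if `ub b` is true each element has a fixed point; if `n_b ≠ 8` and not `n_b = 4` in
  the class `o`, all `A x` except at most one are `≥ 3`, and `≥ 6` for the classes `s` and `o`; if
  `n_b = 8` in the classes `s` and `o`, no `A x` is `4` (so only `8 = 2 * 2 * 2` is left).  The
  condition is that `n_b ≠ ∏ A` for all Mumford data of `b`.  There is no datum with `n_b = ∏ A` in each of the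
  following cases: `F = ℚ`; `n_b` is a prime; the class is `s` or `o` and `n_b ≡ 2 mod 4`; the class is
  `s` and `n_b < 12`, `n_b ≠ 8`; the class is `o` and `n_b < 12`, `n_b ≠ 4, 8`; `E_b⁺ ⊗ F` is a field
  which contains no totally real extension of `E_b⁺` of degree `≥ 2`, for example if `F` is an
  imaginary quadratic field; `E_b⁺ ⊗ F` is a field and `ub b` (Jordan: a transitive group of
  permutations contains an element without fixed points); `E_b ⊗ F` is a field of degree a power
  of two over `E_b` and the class is `s`.  If `E_b⁺ ⊗ F` is a field and there is a datum with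
  `n_b = ∏ A`, then `n_b` is a `k`-th power, where `k ≥ 2` divides `[F : ℚ]`.
* `alt`, for the class `n` and `n_b ≥ 3`: if all `h b τ` are `0`, `n_b / 2` or `n_b`, then all are
  `n_b / 2`, or `nd b`: for `w ∉ Z` the set of the eigenvalues of `σ` on `(e b) V` is not mapped to
  itself by any `y ↦ z / y` (`NoDual`).
* `two`, `twon`, for `n_b = 2^k` (the dimensions of the spin and half spin representations).
  Class `s`, `k ≥ 4`: `Gen1`, and not `k ≡ 1, 2 mod 4` if `k ≥ 5`.  Class `o`, `k ≥ 3`: `Gen1` and
  `k ≡ 1, 2 mod 4`.  Class `n`, `k ≥ 4` even: some `h b τ` is not `0`, `n_b / 2`, `n_b`.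
  `Gen1` says that for some `l` the image of `ρ l` is in the group generated by the conjugates
  of one Hodge cocharacter; for `F = ℚ` this is equivalent to: for some `l` one simple ideal of the Lie
  algebra acts on each `(e b) V`.
* `binom`: if `n_b = C(2k, k)` with `k ≥ 3` odd for the class `s`, or with `k ≥ 4` even for the class
  `o`, then `F` has a real embedding.
* `bin`, for the class `n`, if `F` is totally imaginary and some `h b τ` is not `0`, `n_b / 2`, `n_b`: if
  `n_b = C(N, k)` with `2 ≤ k ≤ N - 2`, then some `h b τ` is not `0`, `n_b`, `C(N - 1, k)`,
  `C(N - 1, k - 1)` (the signatures of the exterior powers).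
* `six`: if `b` is of class `o`, `n_b = 6`, and `c` of class `n`, `n_c = 4`, then some `h c τ` is not `1` or
  `3`, or `ns b c`: for `w ∉ Z` the eigenvalues of `σ` on `(e b) V` are not proportional to products
  of two eigenvalues on `(e c) V` (`NoSix`; `SO_6` and `SL_4`).
* `tw`: if `b` and `c` are of class `n`, `n_b = n_c ≥ 2` and `c ≠ b, bar b`, then the functions `h b`
  and `h c` are equal, or they differ at some `τ` where not both values are `0` or `n_b`, or
  `np b c`: for `w ∉ Z` the eigenvalues of `σ` on `(e b) V` and `(e c) V` are not proportional
  (`NoProp`; twists by characters of CM type).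

For `F = ℚ` all `h b τ` are `n_b / 2`, and the only conditions are: `n_b` is not `2^k` with `k ≥ 4` for
types I and II (under `Gen1`: with `k ≥ 5`, `k ≡ 1, 2 mod 4`), not `2^k` with `k ≥ 3` for type III
(under `Gen1`: with `k ≡ 0, 3 mod 4`), and not `2^k` with `k ≥ 4` even for type IV.

## The conclusion

For all `l` and all subgroups of finite index the monodromy group is the group `typeGrp` of the
`D`-linear symplectic similitudes `x` of `V`, of multiplier `c` say, such that
`∏ det(x | (e b) V)^(a b) c^(a₀) = 1` for all integers `a b`, `a₀` with `∑ (a b) (h b τ) + a₀ = 0` for all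
embeddings `τ` of `F`.  These conditions for all `b` together are defined over `ℚ`: the group is an
algebraic group over `ℚ` which does not depend on `l`.  It contains the Mumford-Tate group of `A`,
because the Hodge cocharacter and its conjugates satisfy these relations, and by Deligne's theorem
the Mumford-Tate group contains the monodromy group.  So the three groups are equal, and the problem
has a positive answer for `A`.  There is no condition on the reduction of `A`, on the type of the
simple factors, on their signatures in general, or on the action of the Galois group on the centres.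

## The proof

Let `w = (π)` be a place outside `Z` as above, `b` a component, `n = n_b`, such that the Lie algebra is
not simple on `(e b) V`.  Blocks `z` are
unions of atoms of the configuration of the eigenvalues of Frobenius (`Pool.Agent.H76P`): a
decomposition of `(e b) V_l` into tensor factors, defined for all `l` in terms of the same
combinatorial data.  Let `m_z ∈ Ω` be the determinant on `(e b) V` of the component of Frobenius at
`z`; it is defined up to `n`-th powers.  For `l ≠ p` it is an `n`-th power at all places where the
conjugates of `π` are `n`-th powers in `ℚ_l`, because by the reciprocity law the characters of order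
dividing `n` of the Galois group of `F` which are unramified outside `S` and `l` are trivial at `w`
then; by Chebotarev's theorem and Kummer theory `m_z` is the product of an `n`-th power and of powers
of the conjugates of `π`.  At the prime `p` the valuation of `m_z` modulo `n` shows whether the
Hodge-Tate cocharacter is in the factor `z` (otherwise this factor of Frobenius is unramified, and
the valuation is divisible by `n`).  So the factor which contains the Hodge-Tate cocharacter is a
function `c` of the embedding of `F` only, and it is equivariant under the Galois group of `E_b⁺`.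
Complex conjugation maps each eigenvalue `a` to `p / a`, so it acts trivially on the blocks.  For
the class `s` the decomposition group at a prime `l` of an element `s` permutes the blocks and the
simple ideals of the Lie algebra, the alternating form is the product of forms on the factors, and
the number of alternating forms is odd; this gives cycles of odd length.  In the case of bad
reduction `(g - 1)^2 = 0` and `g ≠ 1` on `(e b) V`, so the logarithm of `g` is in one simple ideal;
this gives the fixed points.

If all blocks are one point the Lie algebra is simple, and the representation and the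
cocharacter are minuscule.  There remain the standard representations (this is the theorem), the
exterior powers (excluded by `commt` and the numbers `h b τ`, or at the real place: a projector and
its conjugate have opposite orientation) and the spin representations (excluded by `two` and
`twon`).  No classification of Lie algebras is used, this is proved with Jordan pairs.  The
components are independent of each other because the Lie algebras in question are simple (also for
type III, where `n_b ≠ 4` by `part`) and an isomorphism of two of them is given by an intertwiner or its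
dual (for type III: `n_b ≠ 8`; triality), which is excluded by Faltings's theorem if the intertwiner is
not twisted by a character; this is the condition `tw`.  Finally the centre of the monodromy group is given by the
numbers `h b τ`, because `det(σ | (e b) V)` and `∏ τ(π)^(h b τ)` have the same absolute values at
all places.
-/

set_option autoImplicit false

namespace Pool.Agent.Results.MP_e965d0_ag.Reciprocity

open Module Matrix Polynomial Pool.Agent.H53Toric NumberField ST32 Pool.Agent.H76Q Pool.Agent.H45U
open Pool.Agent.H76P (properProj EigOn)
open Pool.Agent.H76U (typeGrp)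
open Pool.Agent.H76RM (spanK similD)
open Pool.Agent.H45Q (CrysF3 Gen1)

/-- Let `F` be a number field, `Ω` an algebraic closure of `F`, `ψ` a nondegenerate alternating
form over `ℚ`, `D` a rational algebra of matrices on which the adjoint involution is positive, `M ⊆ Ω` a
number field, `e b` primitive idempotents of `D ⊗ M`, one for each simple factor, with adjoints
`e (bar b)` with respect to `ψ u`, of the classes `cl b`, `ρ l` representations of the Galois group of
`F` over `ℚ_l`, for all `l`, by `D`-linear symplectic similitudes of `ψ`, and `h b τ` integers, which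
satisfy the conditions explained above (all of them are true for an abelian variety over `F` with
`End = D` and connected monodromy groups, with the multiplicities `h b τ` of `Lie(A)`); the conditions
on Frobenius elements are required for the places of degree one outside a set of density zero.  If no
`n_b = (e b).rank` is the product of the family of a Mumford datum, and the conditions `two`, `binom`,
`twon`, `bin` on the `n_b` which are powers of two or binomial coefficients, the condition `alt` and
the conditions `six` and `tw` on pairs of components are satisfied, then for all `l` the algebraic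
monodromy group of the restriction of `ρ l` to every subgroup of finite index is the group of all
`D`-linear symplectic similitudes of `ψ` whose determinants on the images of the `e b` and whose
multiplier satisfy all multiplicative relations which the Hodge-Tate types `(h b τ)_b` satisfy. -/
theorem result {ι : Type} [Fintype ι] [DecidableEq ι] {ψ : Matrix ι ι ℚ} (hψ : ψᵀ = -ψ)
    (hψ0 : ψ.det ≠ 0) (D : Subalgebra ℚ (Matrix ι ι ℚ)) {M : Type} [Field M] [NumberField M]
    {m : ℕ} (cl : Fin m → H76Z.Cl) (bar : Fin m → Fin m) (e : Fin m → Matrix ι ι M) (u : Matrix ι ι M)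
    (hspl : H76Z.Splits D ψ cl bar e u)
    (hpos : ∀ d ∈ D, d ≠ 0 → 0 < (d * (ψ⁻¹ * dᵀ * ψ)).trace)
    {F : Type} [Field F] [NumberField F] {Ω : Type} [Field Ω] [CharZero Ω] [Algebra F Ω] [IsAlgClosure F Ω]
    (j : M →+* Ω)
    (ρ : ∀ (l : ℕ) [Fact l.Prime], (Ω ≃ₐ[F] Ω) →* Matrix.GeneralLinearGroup ι ℚ_[l])
    (cont : ∀ (l : ℕ) [Fact l.Prime], Continuous fun g => (ρ l g : Matrix ι ι ℚ_[l]))
    (lin : ∀ (l : ℕ) [Fact l.Prime], ∀ g : Ω ≃ₐ[F] Ω, ∀ d ∈ D,
      (ρ l g).1 * d.map (algebraMap ℚ ℚ_[l]) = d.map (algebraMap ℚ ℚ_[l]) * (ρ l g).1)
    (sim : ∀ (l : ℕ) [Fact l.Prime], ∀ g : Ω ≃ₐ[F] Ω, ∃ c : ℚ_[l],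
      (ρ l g).1ᵀ * ψ.map (algebraMap ℚ ℚ_[l]) * (ρ l g).1 = c • ψ.map (algebraMap ℚ ℚ_[l]))
    (semis : ∀ (l : ℕ) [Fact l.Prime], ∀ H : Subgroup (Ω ≃ₐ[F] Ω), H.FiniteIndex →
      ∀ W : Submodule (AlgebraicClosure ℚ_[l]) (ι → AlgebraicClosure ℚ_[l]),
      (∀ s ∈ img (AlgebraicClosure ℚ_[l]) (ρ l) H, ∀ w ∈ W, s *ᵥ w ∈ W) →
      ∃ W' : Submodule (AlgebraicClosure ℚ_[l]) (ι → AlgebraicClosure ℚ_[l]),
        (∀ s ∈ img (AlgebraicClosure ℚ_[l]) (ρ l) H, ∀ w ∈ W', s *ᵥ w ∈ W') ∧ IsCompl W W')
    (commt : ∀ (l : ℕ) [Fact l.Prime], ∀ H : Subgroup (Ω ≃ₐ[F] Ω), H.FiniteIndex →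
      ∀ y : Matrix ι ι (AlgebraicClosure ℚ_[l]),
      (∀ s ∈ img (AlgebraicClosure ℚ_[l]) (ρ l) H, y * s = s * y) →
        y ∈ spanK (AlgebraicClosure ℚ_[l]) D)
    (gen : ∀ (l : ℕ) [Fact l.Prime], ∀ g : Ω ≃ₐ[F] Ω,
      (ρ l g).1.map (algebraMap ℚ_[l] (AlgebraicClosure ℚ_[l])) ∈
        tgen (AlgebraicClosure ℚ_[l]) (ρ l))
    -- the places of bad reduction
    (S : Finset (CFT.Pr F))
    (unr : ∀ (l : ℕ) [Fact l.Prime], ∀ v ∉ S, (l : 𝓞 F) ∉ v.asIdeal →
      ∀ P : Ideal (𝓞 Ω), Above v P → ∀ g : Ω ≃ₐ[F] Ω, Inert P g → ρ l g = 1)
    -- the multiplicities
    (h : Fin m → (F →+* Ω) → ℕ)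
    -- the places outside a set of density zero
    (nd : Fin m → Prop) (np ns : Fin m → Fin m → Prop)
    (Z : Set (CFT.Pr F)) (hZ : DensZero Z)
    (good : ∀ w ∉ Z, ∀ (p : ℕ) [Fact p.Prime], Ideal.absNorm w.asIdeal = p →
      ∃ (σ : Ω ≃ₐ[F] Ω) (f : ℤ[X]) (χ : Fin m → M[X]) (v : AlgebraicClosure ℚ_[p] → ℚ)
        (φ μ ν : Matrix ι ι (AlgebraicClosure ℚ_[p])),
        PlaceData ψ cl e j ρ h nd np ns w p σ f χ v φ μ ν)
    (alt : ∀ b, cl b = .n → (e b).rank ≤ 2 ∨ (∀ τ, 2 * h b τ = (e b).rank) ∨
      (∃ τ, h b τ ≠ 0 ∧ h b τ ≠ (e b).rank ∧ 2 * h b τ ≠ (e b).rank) ∨ nd b)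
    -- bad reduction
    (ub : Fin m → Prop) (N₀ : Set ℕ) (hN₀ : N₀.Finite)
    (bad : ∀ b, ub b → ∀ (l : ℕ) [Fact l.Prime], l ∉ N₀ → ∃ g : Ω ≃ₐ[F] Ω,
      ((ρ l g).1 - 1) * ((ρ l g).1 - 1) = 0 ∧ ∀ i : M →+* AlgebraicClosure ℚ_[l],
        ((ρ l g).1.map (algebraMap ℚ_[l] (AlgebraicClosure ℚ_[l])) - 1) * (e b).map i ≠ 0)
    -- the conditions on `F` and on the dimensions
    (part : ∀ b (k : ℕ) (c : (F →+* Ω) → Option (Fin k)) (A : Fin k → ℕ), 2 ≤ k →
      MumU D j (cl b = .s) (ub b) (e b) (e (bar b)) F (h b) c A → Big (cl b) (e b).rank A →
      (e b).rank ≠ ∏ x, A x)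
    (two : ∀ b (k : ℕ), 3 ≤ k → (e b).rank = 2 ^ k →
      (cl b = .s → 4 ≤ k → Gen1 ρ ∧ ¬ (5 ≤ k ∧ (k % 4 = 1 ∨ k % 4 = 2))) ∧
      (cl b = .o → Gen1 ρ ∧ (k % 4 = 1 ∨ k % 4 = 2)))
    (binom : ∀ b (k : ℕ), (cl b = .s → 3 ≤ k ∧ Odd k) → (cl b = .o → 4 ≤ k ∧ Even k) →
      cl b ≠ .n → (e b).rank = k.centralBinom → Nonempty (F →+* ℝ))
    (twon : ∀ b, cl b = .n → (∀ τ, h b τ = 0 ∨ h b τ = (e b).rank ∨ 2 * h b τ = (e b).rank) →
      ∀ k : ℕ, 4 ≤ k → Even k → (e b).rank ≠ 2 ^ k)
    (bin : ∀ b, cl b = .n → (∃ τ, h b τ ≠ 0 ∧ h b τ ≠ (e b).rank ∧ 2 * h b τ ≠ (e b).rank) →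
      IsEmpty (F →+* ℝ) → ∀ N k : ℕ, 2 ≤ k → k + 2 ≤ N → (e b).rank = N.choose k →
        ∃ τ, h b τ ≠ 0 ∧ h b τ ≠ (e b).rank ∧ h b τ ≠ (N - 1).choose k ∧
          h b τ ≠ (N - 1).choose (k - 1))
    -- the conditions on the pairs of components
    (six : ∀ b c, cl b = .o → cl c = .n → (e b).rank = 6 → (e c).rank = 4 →
      (∃ τ, h c τ ≠ 1 ∧ h c τ ≠ 3) ∨ ns b c)
    (tw : ∀ b c, cl b = .n → cl c = .n → c ≠ b → c ≠ bar b → 2 ≤ (e b).rank → (e c).rank = (e b).rank →
      (∀ τ, h b τ = h c τ) ∨ (∃ τ, h b τ ≠ h c τ ∧
        ¬ ((h b τ = 0 ∨ h b τ = (e b).rank) ∧ (h c τ = 0 ∨ h c τ = (e b).rank))) ∨ np b c) :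
    ∀ (l : ℕ) [Fact l.Prime] (i : M →+* AlgebraicClosure ℚ_[l]), ∀ H : Subgroup (Ω ≃ₐ[F] Ω), H.FiniteIndex →
      monodromy (AlgebraicClosure ℚ_[l]) (ρ l) H =
        typeGrp (AlgebraicClosure ℚ_[l]) ψ D (fun b => (e b).map i) {n | ∃ τ : F →+* Ω, ∀ b, n b = h b τ} :=
  H45U.finalF6 hψ hψ0 D cl bar e u hspl hpos j ρ cont lin sim semis commt gen S unr h nd np ns Z hZ good alt
    ub N₀ hN₀ bad part two binom twon bin six tw

end Pool.Agent.Results.MP_e965d0_ag.Reciprocity
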