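import Pool.Agent.Lib.H1M.RC.D_H76V_VC1

/-!
# Abelian varieties of types I and II with bad reduction: toric rank and multiplicities of the
Frobenius eigenvalues

`V = ℚ^ι` is a vector space with a nondegenerate alternating form of Gram matrix `ψ`, `D` is an
algebra of endomorphisms of `V`, `G` is a group (the absolute Galois group of a number field `F`)
and `ρ l : G → GL(V ⊗ ℚ_l)`, one for each prime `l`, are representations by `D`-linear symplectic
similitudes (the rational Tate modules of an abelian variety `A / F` all of whose endomorphisms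
are defined over `F` and form the algebra `D`).  `M` is a number field, embedded in an algebraic
closure `K` of `ℚ_l` for all `l`, and `e b ∈ D ⊗ M`, `b < m`, are self adjoint primitive
idempotents, one in each simple factor of `D ⊗ M` (`IsSplitting D ψ id e`).  So all simple
factors of `A` are of type I or II in Albert's classification, and the rank `n = 2 h` of `e b`
is twice the relative dimension: `h = g / [E : ℚ]` for type I, `h = g / (2 [E : ℚ])` for type II,
if `A` is isogenous to a power of a simple abelian variety of dimension `g` whose algebra has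
centre `E`.

## The hypotheses, for the primes `l` in a set `Λ`

* `lin`, `sim`, `cyc`, `semis`, `commt`: Weil pairing and the theorems of Faltings;
* `hodge`: the image of a subgroup of finite index is in the Zariski closure of the group
  generated by the cocharacters `1 + (t - 1) h`, `h` in a set of projectors `h ≠ 0, 1` such that
  these cocharacters have values in the monodromy group (Pink 1998: the weak Hodge cocharacters
  generate the identity component; from results of Serre, Sen, Faltings);
* `comp`: every component satisfies `TorK`: either `h = n / 2` is odd, or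
  - there is a unipotent element `1 + N`, `N² = 0`, of the monodromy group, with `N (e b)` of rank
    `r > 0`, such that for every even `a` such that `2 a` divides `n`, `a` divides `r` and, if
    `a = 2`, `4` divides `r`, there is an element `x` of the image of `ρ l` which acts as a nonzero
    scalar on the range of `N (e b)`, and a polynomial `f` such that `f(x) (e b)` is an idempotent
    whose rank is not divisible by `a`;
  - if `n = 2^m` with `m ≥ 5`, `m ≡ 1` or `2 mod 4`, then there is such an `N` (possibly another
    one) with `r ≠ n/4, n/2`; if `n = C(2k, k)` with `k ≥ 3` odd, then there is one with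
    `r ≠ C(2k-2, k-1)`.

Let `w` be a place of `F`, prime to `l`, where (the simple factor of) `A` has semistable bad
reduction, an extension of an abelian variety `B` by a torus `T`.  Let `N` be the logarithm of a
unipotent element of inertia at `w` and `x = ρ l σ`, `σ` a Frobenius element at `w`; assume that
`T` is split (enlarge `F`).  Then `N² = 0` (Grothendieck), `r` is the relative toric rank
`dim T / [E : ℚ]` (type I), `dim T / (2 [E : ℚ])` (type II), and `x` acts on the range of `N` as the
scalar `q_w`.  For `f(x)` we take the projectors on the generalised eigenspaces; their ranks on the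
component are `r`, `r` and the multiplicities `m_i` of the eigenvalues of Frobenius on the part of
dimension `n - 2 r` of `H_1(B)` which belongs to the component.

## The conclusion

For all `l ∈ Λ` (all `l` prime to `w`) the monodromy group of every subgroup of finite index is the
full group of `D`-linear symplectic similitudes of `ψ`, so the problem has a positive answer for
`A` (and the Mumford-Tate conjecture holds for `A`).  So this holds for all abelian varieties of
types I and II (and products) over every number field with a place where the reduction of each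
simple factor is not potentially good, such that there is no even number `a` with `2 a ∣ 2 h` which
divides `r` and all multiplicities `m_i` (for `a = 2` only those with `4 ∣ r` count), except in the
two series of exceptional pairs `(2h, r)` above.  Examples, `h` even:

* one of the `m_i` is odd;
* `r` is odd, or `r ≡ 2 mod 4` and `r / 2` is prime to `h / 2`;
* `h = 4` and `r ≤ 3`; `h = 6` and `r ≠ 4, 6`; `h = 8` and `r ≠ 4, 8`.

For `r` odd, `r = 2` and if some `m_i = 1` this was known (`FreeFrobeniusRoot`); for `D = ℚ` bad
reduction is enough (`BadReductionOrDegree`); for odd `h` no bad reduction is necessary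
(Banaszak, Gajda, Krasoń).  New are the cases with `D ≠ ℚ`, even `h`, even `r ≥ 4`.

## The proof

No classification of Lie algebras is used.  The image of the Lie algebra in `End((e b) V)` is a
sum of minimal ideals, and every involution and `N` are in one of them.  By Pink's theorem every
minimal ideal contains an involution (`Cmp.inv_mem`).  If there are at least two, the component is
a tensor product `V' ⊗ V''` with `N` acting on `V''` only, and the dimensions `a`, `d` of both
factors are even (`Cmp.dims`).  The form is a product of a symplectic and an orthogonal form; if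
`a = 2`, then `V''` is orthogonal and the rank of `N` on it is even (`Cmp.four`).  An element `x`
which acts as a scalar on the range of `N` acts as a scalar on `V'` (`Cmp.commute`), so its
multiplicities are divisible by `a` (`Cmp.idem_dvd`).  Hence the Lie algebra is simple, and a
theorem on simple symplectic Lie algebras with an involution (`Pool.Agent.H49M.coreR`, Jordan
pairs) shows that it is the full symplectic Lie algebra outside the exceptional cases.  Different
components are separated with the method of Ribet (`Pool.Agent.H76RM`).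
-/

set_option autoImplicit false

namespace Pool.Agent.Results.MP_e965d0_ag.ToricMultiplicity

open Pool.Agent.H53Toric Pool.Agent.H76V Matrix Polynomial
open Pool.Agent.H76U (IsSplitting rank_idem_map)
open Pool.Agent.H76RM (spanK similD)

/-- Let `ψ` be a nondegenerate alternating form over `ℚ`, `D` a rational algebra of matrices, `M`
a number field with embeddings `emb l` in the algebraic closure of `ℚ_l`, `e b` self adjoint
primitive idempotents of `D ⊗ M`, one for each simple factor, `G` a group and `ρ l`, `l` prime, a
family of representations of `G` over `ℚ_l` by `D`-linear symplectic similitudes of `ψ`, which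
satisfy the conditions explained above for the primes in `Λ`.  Then for all `l` in `Λ` the
algebraic monodromy group of the restriction of `ρ l` to every subgroup of finite index is the
group of `D`-linear symplectic similitudes of `ψ`. -/
theorem result {ι : Type*} [Fintype ι] [DecidableEq ι] {ψ : Matrix ι ι ℚ} (hψ : ψᵀ = -ψ)
    (hψ0 : ψ.det ≠ 0) (D : Subalgebra ℚ (Matrix ι ι ℚ)) {M : Type*} [Field M] [NumberField M]
    (emb : ∀ (l : ℕ) [Fact l.Prime], M →+* AlgebraicClosure ℚ_[l])
    {m : ℕ} (e : Fin m → Matrix ι ι M) (hspl : IsSplitting D ψ id e) {G : Type*} [Group G]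
    (ρ : ∀ (l : ℕ) [Fact l.Prime], G →* Matrix.GeneralLinearGroup ι ℚ_[l]) (Λ : Set ℕ)
    (lin : ∀ (l : ℕ) [Fact l.Prime], l ∈ Λ → ∀ σ : G, ∀ d ∈ D,
      (ρ l σ).1 * d.map (algebraMap ℚ ℚ_[l]) = d.map (algebraMap ℚ ℚ_[l]) * (ρ l σ).1)
    (sim : ∀ (l : ℕ) [Fact l.Prime], l ∈ Λ → ∀ σ : G, ∃ c : ℚ_[l],
      (ρ l σ).1ᵀ * ψ.map (algebraMap ℚ ℚ_[l]) * (ρ l σ).1 = c • ψ.map (algebraMap ℚ ℚ_[l]))
    (cyc : ∀ (l : ℕ) [Fact l.Prime], l ∈ Λ → ∃ σ : G, ∃ c : ℚ_[l],
      (ρ l σ).1ᵀ * ψ.map (algebraMap ℚ ℚ_[l]) * (ρ l σ).1 = c • ψ.map (algebraMap ℚ ℚ_[l]) ∧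
        ∀ n : ℕ, n ≠ 0 → c ^ n ≠ 1)
    (semis : ∀ (l : ℕ) [Fact l.Prime], l ∈ Λ → ∀ H : Subgroup G, H.FiniteIndex →
      ∀ W : Submodule (AlgebraicClosure ℚ_[l]) (ι → AlgebraicClosure ℚ_[l]),
      (∀ s ∈ img (AlgebraicClosure ℚ_[l]) (ρ l) H, ∀ w ∈ W, s *ᵥ w ∈ W) →
      ∃ W' : Submodule (AlgebraicClosure ℚ_[l]) (ι → AlgebraicClosure ℚ_[l]),
        (∀ s ∈ img (AlgebraicClosure ℚ_[l]) (ρ l) H, ∀ w ∈ W', s *ᵥ w ∈ W') ∧ IsCompl W W')
    (commt : ∀ (l : ℕ) [Fact l.Prime], l ∈ Λ → ∀ H : Subgroup G, H.FiniteIndex →
      ∀ y : Matrix ι ι (AlgebraicClosure ℚ_[l]),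
      (∀ s ∈ img (AlgebraicClosure ℚ_[l]) (ρ l) H, y * s = s * y) →
        y ∈ spanK (AlgebraicClosure ℚ_[l]) D)
    (hodge : ∀ (l : ℕ) [Fact l.Prime], l ∈ Λ →
      ∃ 𝓗 : Set (Matrix ι ι (AlgebraicClosure ℚ_[l])), 𝓗.Nonempty ∧
        (∀ h ∈ 𝓗, h ∈ hodgeProj (img (AlgebraicClosure ℚ_[l]) (ρ l) ⊤) ∧ h ≠ 0 ∧ h ≠ 1) ∧
        ∃ H₀ : Subgroup G, H₀.FiniteIndex ∧ img (AlgebraicClosure ℚ_[l]) (ρ l) H₀ ⊆
          zar (Submonoid.closure {x | ∃ h ∈ 𝓗, ∃ t : AlgebraicClosure ℚ_[l],
            t ≠ 0 ∧ x = 1 + (t - 1) • h} : Set (Matrix ι ι (AlgebraicClosure ℚ_[l]))))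
    (comp : ∀ (l : ℕ) [Fact l.Prime], l ∈ Λ → ∀ b,
      TorK (AlgebraicClosure ℚ_[l]) (ρ l) ((e b).map (emb l)) (e b).rank) :
    ∀ (l : ℕ) [Fact l.Prime], l ∈ Λ → ∀ H : Subgroup G, H.FiniteIndex →
      monodromy (AlgebraicClosure ℚ_[l]) (ρ l) H = similD (AlgebraicClosure ℚ_[l]) ψ D := by
  intro l _ hl H hH
  obtain ⟨𝓗, hnon, h𝓗, H₀, hfin, hgen⟩ := hodge l hl
  refine monodromy_tor hψ hψ0 D (ρ l) (lin l hl) (sim l hl) (cyc l hl) (semis l hl) (commt l hl)
    (hspl.map (emb l)) hnon (fun x hx => (h𝓗 x hx).1) (fun x hx => (h𝓗 x hx).2) hfin hgen ?_ H hH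
  intro b
  rw [rank_idem_map (hspl.idem b)]
  exact comp l hl b

end Pool.Agent.Results.MP_e965d0_ag.ToricMultiplicity
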